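import Pool.Agent.Spider.Two

namespace Pool.Agent.Results.MP_4fbaa5_co.AtMostTwoLegs

/-- The good pairs `(n,t)` with `n ≥ 7` and `t ≤ 2`. -/
theorem result : ∀ n t : ℕ, 7 ≤ n → t ≤ 2 →
    (Spider.Good n t ↔ (t = 0 ∨ (t = 1 ∧ Odd n) ∨ (t = 2 ∧ ¬ ∃ k : ℕ, n = 2 ^ k))) := by
  intro n t hn ht
  have h : t = 0 ∨ t = 1 ∨ t = 2 := by omega
  rcases h with rfl | rfl | rfl
  · simp [Spider.good_zero (show 1 ≤ n by omega)]
  · rw [Spider.good_one_iff (by omega)]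
    simp
  · rw [Spider.good_two_iff hn]
    simp

end Pool.Agent.Results.MP_4fbaa5_co.AtMostTwoLegs
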