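import Pool.Agent.Spider.Two
import Pool.Agent.SpF.Final

namespace Pool.Agent.Results.MP_4fbaa5_co.FullRange

/-- For all large `n` the pair `(n,t)` is good if and only if `t = 0`, or `t = 1` and `n` is odd,
or `t = 2` and `n` is not a power of two, or `t ≥ 3`. -/
theorem result : ∃ n₀ : ℕ, ∀ n t : ℕ, n₀ ≤ n → 2 * t + 1 ≤ n →
    (Spider.Good n t ↔
      (t = 0 ∨ (t = 1 ∧ Odd n) ∨ (t = 2 ∧ ¬ ∃ k : ℕ, n = 2 ^ k) ∨ 3 ≤ t)) := by
  obtain ⟨n₁, h⟩ := SpF.full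
  refine ⟨max n₁ 7, fun n t hn ht => ?_⟩
  have hn1 : n₁ ≤ n := le_trans (le_max_left _ _) hn
  have hn7 : 7 ≤ n := le_trans (le_max_right _ _) hn
  by_cases h3 : 3 ≤ t
  · exact ⟨fun _ => Or.inr (Or.inr (Or.inr h3)), fun _ => h n t hn1 h3 ht⟩
  · have h2 : t = 0 ∨ t = 1 ∨ t = 2 := by omega
    rcases h2 with rfl | rfl | rfl
    · simp [Spider.good_zero (show 1 ≤ n by omega)]
    · rw [Spider.good_one_iff (by omega)]
      simp
    · rw [Spider.good_two_iff hn7]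
      simp

end Pool.Agent.Results.MP_4fbaa5_co.FullRange
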